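import Pool.Agent.R436.Kur.Cross
import Pool.Agent.R436.Kur.Kink

/-! Adding a universal vertex can destroy global synchronization. -/

namespace Pool.Agent.Results.MP_d89e95_an.UniversalVertex

open KurUV

/-- First part: for every finite simple graph and every initial condition the Kuramoto model has
exactly one solution for all times `t ≥ 0`.
Second part: there is a globally synchronizing finite simple graph `G` such that the graph
obtained from `G` by adding a universal vertex is not globally synchronizing. -/
theorem result :
    (∀ (V : Type) [Fintype V] (G : SimpleGraph V) (x : V → ℝ),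
      ∃ γ, IsSolution G γ ∧ γ 0 = x ∧
        ∀ γ', IsSolution G γ' → γ' 0 = x → ∀ t, 0 ≤ t → γ' t = γ t) ∧
    ∃ (V : Type) (_ : Fintype V) (G : SimpleGraph V),
      GloballySynchronizing G ∧ ¬ GloballySynchronizing (addUniversal G) := by
  refine ⟨fun V _ G x => exists_solution G x, Vtx, inferInstance, blow, blow_sync, ?_⟩
  refine not_sync fun x => ?_
  obtain ⟨γ, h1, h2, -⟩ := exists_solution (addUniversal blow) x
  exact ⟨γ, h1, h2⟩

end Pool.Agent.Results.MP_d89e95_an.UniversalVertex
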